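import Mathlib

/-!
# Stable flow length of homeomorphisms conjugate to their inverse (MP_e54d61_gt, Q2)

For a topological space `X` (for instance the closed surface `Σ_g`), a *flow* is a continuous
one-parameter group of homeomorphisms of `X`, and the *flow length* of a homeomorphism `h` is the
least number of time-one maps of flows whose product is `h` (it is `∞` if `h` is no such product).
The homeomorphisms of finite flow length form the group `flowGroup X`, generated by the time-one
maps of flows.  For `X = Σ_g` this group is the identity component `Homeo₀(Σ_g)`, as recalled in the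
problem file.

We show: if `f` is conjugate to `f⁻¹` in this group, by an element `r`, then every even power of
`f` is a product of at most `2 * flowLength r` time-one maps of flows.  Hence the stable flow
length of `f` is zero, and the answer to Q2 is negative.
-/

set_option autoImplicit false

open Filter Topology
open scoped ENNReal

namespace Pool.Agent.Results.MP_e54d61_gt.ReversibleZeroFlowLength

variable {X : Type*} [TopologicalSpace X]

/-- `φ` is a flow on `X`: a continuous one-parameter group of homeomorphisms. -/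
structure IsFlow (φ : ℝ → (X ≃ₜ X)) : Prop where
  map_add : ∀ s t : ℝ, φ (s + t) = φ s * φ t
  continuous : Continuous fun p : ℝ × X => φ p.1 p.2

/-- The set of all time-one maps of flows on `X`. -/
def timeOneMaps (X : Type*) [TopologicalSpace X] : Set (X ≃ₜ X) :=
  {h | ∃ φ : ℝ → (X ≃ₜ X), IsFlow φ ∧ φ 1 = h}

/-- The group of homeomorphisms of `X` generated by the time-one maps of flows.  For a closed
surface this is the identity component of the homeomorphism group. -/
def flowGroup (X : Type*) [TopologicalSpace X] : Subgroup (X ≃ₜ X) :=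
  Subgroup.closure (timeOneMaps X)

/-- The flow length of `h`: the least number of time-one maps of flows whose product is `h`. -/
noncomputable def flowLength (h : X ≃ₜ X) : ℕ∞ :=
  sInf {n : ℕ∞ | ∃ l : List (X ≃ₜ X), (∀ s ∈ l, s ∈ timeOneMaps X) ∧ l.prod = h ∧
    n = (l.length : ℕ∞)}

lemma IsFlow.map_zero {φ : ℝ → (X ≃ₜ X)} (hφ : IsFlow φ) : φ 0 = 1 := by
  have h := hφ.map_add 0 0
  rw [add_zero] at h
  exact (mul_eq_left (a := φ 0)).mp h.symm

lemma one_mem_timeOneMaps : (1 : X ≃ₜ X) ∈ timeOneMaps X :=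
  ⟨fun _ => 1, ⟨fun _ _ => (mul_one _).symm, continuous_snd⟩, rfl⟩

lemma inv_mem_timeOneMaps {h : X ≃ₜ X} (hh : h ∈ timeOneMaps X) : h⁻¹ ∈ timeOneMaps X := by
  obtain ⟨φ, hφ, rfl⟩ := hh
  refine ⟨fun t => φ (-t), ⟨fun s t => ?_, ?_⟩, ?_⟩
  · show φ (-(s + t)) = φ (-s) * φ (-t)
    rw [neg_add, hφ.map_add]
  · exact hφ.continuous.comp (continuous_fst.neg.prodMk continuous_snd)
  · show φ (-1) = (φ 1)⁻¹
    rw [eq_inv_iff_mul_eq_one, ← hφ.map_add, neg_add_cancel, hφ.map_zero]

lemma conj_mem_timeOneMaps {h : X ≃ₜ X} (k : X ≃ₜ X) (hh : h ∈ timeOneMaps X) :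
    k * h * k⁻¹ ∈ timeOneMaps X := by
  obtain ⟨φ, hφ, rfl⟩ := hh
  refine ⟨fun t => k * φ t * k⁻¹, ⟨fun s t => ?_, ?_⟩, rfl⟩
  · show k * φ (s + t) * k⁻¹ = k * φ s * k⁻¹ * (k * φ t * k⁻¹)
    rw [hφ.map_add]
    group
  · show Continuous fun p : ℝ × X => k (φ p.1 (k⁻¹ p.2))
    exact k.continuous.comp
      (hφ.continuous.comp (continuous_fst.prodMk ((k⁻¹ : X ≃ₜ X).continuous.comp continuous_snd)))

lemma flowLength_le {l : List (X ≃ₜ X)} (hl : ∀ s ∈ l, s ∈ timeOneMaps X) :
    flowLength l.prod ≤ l.length :=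
  sInf_le ⟨l, hl, rfl, rfl⟩

lemma exists_list {h : X ≃ₜ X} (hh : flowLength h ≠ ⊤) :
    ∃ l : List (X ≃ₜ X), (∀ s ∈ l, s ∈ timeOneMaps X) ∧ l.prod = h ∧
      flowLength h = (l.length : ℕ∞) := by
  have hne : {n : ℕ∞ | ∃ l : List (X ≃ₜ X), (∀ s ∈ l, s ∈ timeOneMaps X) ∧ l.prod = h ∧
      n = (l.length : ℕ∞)}.Nonempty := by
    by_contra hcon
    rw [Set.not_nonempty_iff_eq_empty] at hcon
    apply hh
    unfold flowLength
    rw [hcon, sInf_empty]
  exact csInf_mem hne

lemma flowLength_mul_le (a b : X ≃ₜ X) : flowLength (a * b) ≤ flowLength a + flowLength b := by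
  by_cases ha : flowLength a = ⊤
  · rw [ha, top_add]; exact le_top
  by_cases hb : flowLength b = ⊤
  · rw [hb, add_top]; exact le_top
  obtain ⟨l, hl, hla, hln⟩ := exists_list ha
  obtain ⟨m, hm, hmb, hmn⟩ := exists_list hb
  have := flowLength_le (l := l ++ m) (by
    intro s hs
    rcases List.mem_append.mp hs with h | h
    · exact hl s h
    · exact hm s h)
  rw [List.prod_append, hla, hmb, List.length_append] at this
  rw [hln, hmn]
  exact_mod_cast this

lemma flowLength_inv_le (a : X ≃ₜ X) : flowLength a⁻¹ ≤ flowLength a := by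
  by_cases ha : flowLength a = ⊤
  · rw [ha]; exact le_top
  obtain ⟨l, hl, hla, hln⟩ := exists_list ha
  have := flowLength_le (l := (l.map fun s => s⁻¹).reverse) (by
    intro s hs
    rw [List.mem_reverse, List.mem_map] at hs
    obtain ⟨t, ht, rfl⟩ := hs
    exact inv_mem_timeOneMaps (hl t ht))
  rw [← List.prod_inv_reverse, hla, List.length_reverse, List.length_map] at this
  rw [hln]
  exact this

lemma flowLength_conj_le (k a : X ≃ₜ X) : flowLength (k * a * k⁻¹) ≤ flowLength a := by
  by_cases ha : flowLength a = ⊤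
  · rw [ha]; exact le_top
  obtain ⟨l, hl, hla, hln⟩ := exists_list ha
  have := flowLength_le (l := l.map (MulAut.conj k)) (by
    intro s hs
    rw [List.mem_map] at hs
    obtain ⟨t, ht, rfl⟩ := hs
    exact conj_mem_timeOneMaps k (hl t ht))
  rw [← map_list_prod, hla, List.length_map] at this
  rw [hln]
  exact this

lemma flowLength_ne_top {h : X ≃ₜ X} (hh : h ∈ flowGroup X) : flowLength h ≠ ⊤ := by
  unfold flowGroup at hh
  induction hh using Subgroup.closure_induction with
  | mem x hx =>
    have := flowLength_le (l := [x]) (by simpa using hx)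
    rw [List.prod_singleton] at this
    exact (lt_of_le_of_lt this (by simp)).ne
  | one =>
    have := flowLength_le (X := X) (l := []) (by simp)
    rw [List.prod_nil] at this
    exact (lt_of_le_of_lt this (by simp)).ne
  | mul x y _ _ hx hy =>
    exact (lt_of_le_of_lt (flowLength_mul_le x y)
      (ENat.add_lt_top.mpr ⟨lt_top_iff_ne_top.mpr hx, lt_top_iff_ne_top.mpr hy⟩)).ne
  | inv x _ hx =>
    exact (lt_of_le_of_lt (flowLength_inv_le x) (lt_top_iff_ne_top.mpr hx)).ne

lemma even_power {f r : X ≃ₜ X} (h : r * f * r⁻¹ = f⁻¹) (m : ℕ) :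
    f ^ (2 * m) = (f ^ m * r⁻¹ * (f ^ m)⁻¹) * r := by
  have h1 : r * f ^ m * r⁻¹ = (f ^ m)⁻¹ := by
    rw [← conj_pow, h, inv_pow]
  have h2 : (f ^ m)⁻¹ * r = r * f ^ m := by
    rw [← h1]; group
  rw [mul_assoc _ _ r, h2, two_mul, pow_add]
  group

lemma flowLength_even {f r : X ≃ₜ X} (h : r * f * r⁻¹ = f⁻¹) (m : ℕ) :
    flowLength (f ^ (2 * m)) ≤ 2 * flowLength r := by
  rw [even_power h m, two_mul]
  refine (flowLength_mul_le _ _).trans (add_le_add ?_ le_rfl)
  exact (flowLength_conj_le _ _).trans (flowLength_inv_le r)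

/-- **Theorem.** Let `f` be an element of the group generated by the time-one maps of flows on `X`
(for `X = Σ_g` this is `Homeo₀(Σ_g)`), and suppose that `f` is conjugate to `f⁻¹` in that group, by
an element `r`.  Then all even powers of `f` have flow length at most `2 * flowLength r < ∞`, and
the stable flow length `lim flowLength (f ^ n) / n` of `f` is zero. -/
theorem result (X : Type*) [TopologicalSpace X] (f r : X ≃ₜ X) (hf : f ∈ flowGroup X)
    (hr : r ∈ flowGroup X) (hconj : r * f * r⁻¹ = f⁻¹) :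
    flowLength r < ⊤ ∧ (∀ m : ℕ, flowLength (f ^ (2 * m)) ≤ 2 * flowLength r) ∧
      Tendsto (fun n : ℕ => ((flowLength (f ^ n) : ℕ∞) : ℝ≥0∞) / n) atTop (𝓝 0) := by
  have hr' := flowLength_ne_top hr
  have hf' := flowLength_ne_top hf
  refine ⟨lt_top_iff_ne_top.mpr hr', flowLength_even hconj, ?_⟩
  have hC : 2 * flowLength r + flowLength f ≠ ⊤ := by
    refine (ENat.add_lt_top.mpr ⟨?_, lt_top_iff_ne_top.mpr hf'⟩).ne
    rw [two_mul]
    exact ENat.add_lt_top.mpr ⟨lt_top_iff_ne_top.mpr hr', lt_top_iff_ne_top.mpr hr'⟩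
  have hbound : ∀ n : ℕ, flowLength (f ^ n) ≤ 2 * flowLength r + flowLength f := by
    intro n
    rcases Nat.even_or_odd' n with ⟨m, hm | hm⟩
    · rw [hm]
      exact (flowLength_even hconj m).trans le_self_add
    · rw [hm, pow_succ]
      exact (flowLength_mul_le _ _).trans (add_le_add (flowLength_even hconj m) le_rfl)
  have hlim : Tendsto (fun n : ℕ => (((2 * flowLength r + flowLength f : ℕ∞)) : ℝ≥0∞) / n)
      atTop (𝓝 0) := by
    have h1 := ENNReal.Tendsto.const_div
      (a := (((2 * flowLength r + flowLength f : ℕ∞)) : ℝ≥0∞)) ENNReal.tendsto_nat_nhds_top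
      (Or.inr (ENat.toENNReal_ne_top.mpr hC))
    rwa [ENNReal.div_top] at h1
  refine tendsto_of_tendsto_of_tendsto_of_le_of_le tendsto_const_nhds hlim (fun _ => zero_le) ?_
  intro n
  exact ENNReal.div_le_div_right (by exact_mod_cast hbound n) _

end Pool.Agent.Results.MP_e54d61_gt.ReversibleZeroFlowLength
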